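import Mathlib

/-!
The Marcus-Tardos theorem: a set of cells of an `m x m` board which contains no copy of a fixed
permutation matrix `σ` of size `k` has at most `c_k * m` cells, `c_k = 4 k^4 * choose (2 k^2) k`.
-/

namespace Pool.Agent.Hhelper9.Twins

/-- the set `S` of cells contains the pattern `σ` -/
def Cont (S : Finset (ℕ × ℕ)) {k : ℕ} (σ : Equiv.Perm (Fin k)) : Prop :=
  ∃ f g : Fin k → ℕ, StrictMono f ∧ StrictMono g ∧ ∀ a, (f a, g (σ a)) ∈ S

/-- the block of side `b` of a cell -/
def blk (b : ℕ) (p : ℕ × ℕ) : ℕ × ℕ := (p.1 / b, p.2 / b)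

/-- the cells of `S` in the block `B` -/
def pts (S : Finset (ℕ × ℕ)) (b : ℕ) (B : ℕ × ℕ) : Finset (ℕ × ℕ) :=
  S.filter fun p => blk b p = B

theorem mem_pts {S : Finset (ℕ × ℕ)} {b : ℕ} {B p : ℕ × ℕ} :
    p ∈ pts S b B ↔ p ∈ S ∧ blk b p = B := by
  simp [pts]

theorem cont_of_blk {S : Finset (ℕ × ℕ)} {b k : ℕ} {σ : Equiv.Perm (Fin k)}
    (h : Cont (S.image (blk b)) σ) : Cont S σ := by
  obtain ⟨f, g, hf, hg, hS⟩ := h
  have h1 : ∀ a, ∃ p ∈ S, blk b p = (f a, g (σ a)) := fun a => by
    simpa using Finset.mem_image.1 (hS a)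
  choose p hp hb using h1
  refine ⟨fun a => (p a).1, fun j => (p (σ.symm j)).2, ?_, ?_, ?_⟩
  · intro a a' haa
    have e1 := congrArg Prod.fst (hb a)
    have e2 := congrArg Prod.fst (hb a')
    simp only [blk] at e1 e2
    have := hf haa
    rw [← e1, ← e2] at this
    exact Nat.lt_of_div_lt_div this
  · intro j j' hjj
    have e1 := congrArg Prod.snd (hb (σ.symm j))
    have e2 := congrArg Prod.snd (hb (σ.symm j'))
    simp only [blk, Equiv.apply_symm_apply] at e1 e2
    have := hg hjj
    rw [← e1, ← e2] at this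
    exact Nat.lt_of_div_lt_div this
  · intro a
    simp only [Equiv.symm_apply_apply]
    exact hp a

theorem cont_swap {S : Finset (ℕ × ℕ)} {k : ℕ} {σ : Equiv.Perm (Fin k)}
    (h : Cont (S.image Prod.swap) σ.symm) : Cont S σ := by
  obtain ⟨f, g, hf, hg, hS⟩ := h
  refine ⟨g, f, hg, hf, fun a => ?_⟩
  have := hS (σ a)
  rw [Equiv.symm_apply_apply] at this
  obtain ⟨p, hp, he⟩ := Finset.mem_image.1 this
  have : p = (g a, f (σ a)) := by
    rw [← Prod.swap_swap p, he]
    rfl
  rwa [← this]

/-- the wide blocks in the column `X` of blocks -/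
theorem wide_col {S : Finset (ℕ × ℕ)} {b k : ℕ} (hb : 0 < b) {σ : Equiv.Perm (Fin k)}
    (h : ¬ Cont S σ) (X M : ℕ) :
    ((Finset.range M).filter fun Y => k ≤ ((pts S b (X, Y)).image Prod.fst).card).card ≤
      (k - 1) * b.choose k := by
  classical
  by_contra hc
  push Not at hc
  set W := (Finset.range M).filter fun Y => k ≤ ((pts S b (X, Y)).image Prod.fst).card with hW
  have hT : ∀ Y, ∃ T : Finset ℕ, Y ∈ W → T ⊆ (pts S b (X, Y)).image Prod.fst ∧ T.card = k := by
    intro Y
    by_cases hY : Y ∈ W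
    · obtain ⟨T, h1, h2⟩ := Finset.exists_subset_card_eq (Finset.mem_filter.1 hY).2
      exact ⟨T, fun _ => ⟨h1, h2⟩⟩
    · exact ⟨∅, fun h => absurd h hY⟩
  choose T hT using hT
  have hmaps : ∀ Y ∈ W, T Y ∈ (Finset.Ico (X * b) (X * b + b)).powersetCard k := by
    intro Y hY
    obtain ⟨h1, h2⟩ := hT Y hY
    refine Finset.mem_powersetCard.2 ⟨fun c hcT => ?_, h2⟩
    obtain ⟨p, hp, rfl⟩ := Finset.mem_image.1 (h1 hcT)
    have h3 := congrArg Prod.fst (mem_pts.1 hp).2
    simp only [blk] at h3
    rw [Finset.mem_Ico]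
    constructor
    · rw [← h3]
      exact Nat.div_mul_le_self _ _
    · rw [← h3]
      have := Nat.div_add_mod p.1 b
      have h4 := Nat.mod_lt p.1 hb
      rw [mul_comm] at this
      omega
  have hcard : ((Finset.Ico (X * b) (X * b + b)).powersetCard k).card * (k - 1) < W.card := by
    rw [Finset.card_powersetCard, Nat.card_Ico, Nat.add_sub_cancel_left, mul_comm]
    exact hc
  obtain ⟨T0, hT0, hfib⟩ := Finset.exists_lt_card_fiber_of_mul_lt_card_of_maps_to hmaps hcard
  have hT0c : T0.card = k := (Finset.mem_powersetCard.1 hT0).2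
  have hfib2 : k ≤ (W.filter fun Y => T Y = T0).card := by omega
  obtain ⟨R, hR, hRc⟩ := Finset.exists_subset_card_eq hfib2
  apply h
  have hq : ∀ a : Fin k, ∃ q ∈ S, q.1 = T0.orderEmbOfFin hT0c a ∧
      q.2 / b = R.orderEmbOfFin hRc (σ a) := by
    intro a
    have h1 : T0.orderEmbOfFin hT0c a ∈ T0 := Finset.orderEmbOfFin_mem _ _ _
    have h2 : R.orderEmbOfFin hRc (σ a) ∈ R := Finset.orderEmbOfFin_mem _ _ _
    obtain ⟨h3, h4⟩ := Finset.mem_filter.1 (hR h2)
    have h7 : T0.orderEmbOfFin hT0c a ∈ T (R.orderEmbOfFin hRc (σ a)) := h4.symm ▸ h1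
    obtain ⟨q, hq, hq1⟩ := Finset.mem_image.1 ((hT _ h3).1 h7)
    obtain ⟨h5, h6⟩ := mem_pts.1 hq
    exact ⟨q, h5, hq1, congrArg Prod.snd h6⟩
  choose q hqS hq1 hq2 using hq
  refine ⟨fun a => T0.orderEmbOfFin hT0c a, fun j => (q (σ.symm j)).2,
    (T0.orderEmbOfFin hT0c).strictMono, ?_, ?_⟩
  · intro j j' hjj
    have e1 := hq2 (σ.symm j)
    have e2 := hq2 (σ.symm j')
    rw [Equiv.apply_symm_apply] at e1 e2
    have := (R.orderEmbOfFin hRc).strictMono hjj
    rw [← e1, ← e2] at this
    exact Nat.lt_of_div_lt_div this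
  · intro a
    simp only [Equiv.symm_apply_apply]
    rw [← hq1 a]
    exact hqS a

/-- the number of wide blocks -/
theorem wide_count {S : Finset (ℕ × ℕ)} {b k : ℕ} (hb : 0 < b) {σ : Equiv.Perm (Fin k)}
    (h : ¬ Cont S σ) (M : ℕ) :
    (((Finset.range M) ×ˢ (Finset.range M)).filter
      fun B => k ≤ ((pts S b B).image Prod.fst).card).card ≤ M * ((k - 1) * b.choose k) := by
  classical
  have h1 : (((Finset.range M) ×ˢ (Finset.range M)).filter
      fun B => k ≤ ((pts S b B).image Prod.fst).card) ⊆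
      (Finset.range M).biUnion fun X => ((Finset.range M).filter
        fun Y => k ≤ ((pts S b (X, Y)).image Prod.fst).card).image fun Y => (X, Y) := by
    rintro ⟨X, Y⟩ hB
    obtain ⟨h2, h3⟩ := Finset.mem_filter.1 hB
    obtain ⟨h4, h5⟩ := Finset.mem_product.1 h2
    exact Finset.mem_biUnion.2 ⟨X, h4, Finset.mem_image.2
      ⟨Y, Finset.mem_filter.2 ⟨h5, h3⟩, rfl⟩⟩
  refine (Finset.card_le_card h1).trans (Finset.card_biUnion_le.trans ?_)
  calc ∑ X ∈ Finset.range M, (((Finset.range M).filter
        fun Y => k ≤ ((pts S b (X, Y)).image Prod.fst).card).image fun Y => (X, Y)).card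
      ≤ ∑ _X ∈ Finset.range M, (k - 1) * b.choose k :=
        Finset.sum_le_sum fun X _ => Finset.card_image_le.trans (wide_col hb h X M)
    _ = M * ((k - 1) * b.choose k) := by simp

theorem tall_count {S : Finset (ℕ × ℕ)} {b k : ℕ} (hb : 0 < b) {σ : Equiv.Perm (Fin k)}
    (h : ¬ Cont S σ) (M : ℕ) :
    (((Finset.range M) ×ˢ (Finset.range M)).filter
      fun B => k ≤ ((pts S b B).image Prod.snd).card).card ≤ M * ((k - 1) * b.choose k) := by
  classical
  have h' : ¬ Cont (S.image Prod.swap) σ.symm := fun hc => h (cont_swap hc)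
  refine le_trans ?_ (wide_count hb h' M)
  refine Finset.card_le_card_of_injOn Prod.swap ?_ (Prod.swap_injective.injOn)
  intro B hB
  rw [Finset.mem_coe, Finset.mem_filter, Finset.mem_product] at hB ⊢
  refine ⟨⟨hB.1.2, hB.1.1⟩, hB.2.trans (le_of_eq ?_)⟩
  congr 1
  ext x
  simp only [Finset.mem_image, mem_pts]
  constructor
  · rintro ⟨p, ⟨hp, hpB⟩, rfl⟩
    exact ⟨p.swap, ⟨⟨p, hp, rfl⟩, by rw [← hpB]; rfl⟩, rfl⟩
  · rintro ⟨_, ⟨⟨p, hp, rfl⟩, hpB⟩, rfl⟩
    refine ⟨p, ⟨hp, ?_⟩, rfl⟩
    rw [← Prod.swap_swap B, ← hpB]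
    rfl

/-- the constant of the theorem -/
def mt (k : ℕ) : ℕ := (2 * k ^ 2) ^ 2 * (2 * k ^ 2).choose k

theorem marcus_tardos {k : ℕ} {σ : Equiv.Perm (Fin k)} (m : ℕ) (S : Finset (ℕ × ℕ))
    (hS : ∀ p ∈ S, p.1 < m ∧ p.2 < m) (h : ¬ Cont S σ) : S.card ≤ mt k * m := by
  classical
  induction m using Nat.strong_induction_on generalizing S with
  | _ m ih =>
  rcases Nat.eq_zero_or_pos k with hk | hk
  · subst hk
    exact absurd ⟨fun a => a.elim0, fun a => a.elim0, fun a => a.elim0, fun a => a.elim0,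
      fun a => a.elim0⟩ h
  set b := 2 * k ^ 2 with hbdef
  have hb2 : 2 ≤ b := by nlinarith
  have hb0 : 0 < b := by omega
  have hkb : k ≤ b := by nlinarith
  have hch : 0 < b.choose k := Nat.choose_pos hkb
  have hmt : mt k = b ^ 2 * b.choose k := rfl
  rcases lt_or_ge m b with hmb | hmb
  · have h1 : S ⊆ Finset.range m ×ˢ Finset.range m := fun p hp => by
      simpa using hS p hp
    have h2 := Finset.card_le_card h1
    rw [Finset.card_product, Finset.card_range] at h2
    calc S.card ≤ m * m := h2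
      _ ≤ b * m := Nat.mul_le_mul_right _ hmb.le
      _ ≤ (b ^ 2 * b.choose k) * m := by
          refine Nat.mul_le_mul_right _ ?_
          calc b = b * 1 := (mul_one b).symm
            _ ≤ b * (b * b.choose k) := Nat.mul_le_mul_left _ (Nat.mul_pos hb0 hch)
            _ = b ^ 2 * b.choose k := by ring
  · set M := (m - 1) / b + 1 with hM
    have hMm : M < m := by
      have : (m - 1) / b ≤ (m - 1) / 2 := Nat.div_le_div_left hb2 (by norm_num)
      omega
    have hMb : k ^ 2 * M ≤ m := by
      have h1 : (m - 1) / b * b ≤ m - 1 := Nat.div_mul_le_self _ _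
      have h2 : M * b = (m - 1) / b * b + b := by rw [hM]; ring
      have h3 : M * b ≤ 2 * m := by omega
      have h4 : M * b = 2 * (k ^ 2 * M) := by rw [hbdef]; ring
      omega
    set S' := S.image (blk b) with hS'
    have hS'M : ∀ p ∈ S', p.1 < M ∧ p.2 < M := by
      intro p hp
      obtain ⟨q, hq, rfl⟩ := Finset.mem_image.1 hp
      obtain ⟨h1, h2⟩ := hS q hq
      constructor
      · show q.1 / b < M
        have : q.1 / b ≤ (m - 1) / b := Nat.div_le_div_right (by omega)
        omega
      · show q.2 / b < M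
        have : q.2 / b ≤ (m - 1) / b := Nat.div_le_div_right (by omega)
        omega
    have hrec : S'.card ≤ mt k * M := ih M hMm S' hS'M fun hc => h (cont_of_blk hc)
    -- the three kinds of blocks
    set Wd := ((Finset.range M) ×ˢ (Finset.range M)).filter
      fun B => k ≤ ((pts S b B).image Prod.fst).card with hWd
    set Tl := ((Finset.range M) ×ˢ (Finset.range M)).filter
      fun B => k ≤ ((pts S b B).image Prod.snd).card with hTl
    have hcard : S.card = ∑ B ∈ S', (pts S b B).card :=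
      Finset.card_eq_sum_card_image (blk b) S
    have hbd : ∀ B, (pts S b B).card ≤ b ^ 2 := by
      intro B
      have h1 : pts S b B ⊆ Finset.Ico (B.1 * b) (B.1 * b + b) ×ˢ
          Finset.Ico (B.2 * b) (B.2 * b + b) := by
        intro p hp
        have h3 := (mem_pts.1 hp).2
        have h4 := congrArg Prod.fst h3
        have h5 := congrArg Prod.snd h3
        simp only [blk] at h4 h5
        rw [Finset.mem_product, Finset.mem_Ico, Finset.mem_Ico, ← h4, ← h5]
        have e1 := Nat.div_add_mod p.1 b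
        have e2 := Nat.div_add_mod p.2 b
        have e3 := Nat.mod_lt p.1 hb0
        have e4 := Nat.mod_lt p.2 hb0
        rw [mul_comm] at e1 e2
        refine ⟨⟨by omega, by omega⟩, ⟨by omega, by omega⟩⟩
      have h2 := Finset.card_le_card h1
      rw [Finset.card_product, Nat.card_Ico, Nat.card_Ico, Nat.add_sub_cancel_left,
        Nat.add_sub_cancel_left, ← pow_two] at h2
      exact h2
    have hsmall : ∀ B, B ∉ Wd → B ∉ Tl → B ∈ S' → (pts S b B).card ≤ (k - 1) ^ 2 := by
      intro B h1 h2 h3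
      have h4 : B ∈ (Finset.range M) ×ˢ (Finset.range M) := by
        simpa using hS'M B h3
      have h5 : ((pts S b B).image Prod.fst).card ≤ k - 1 := by
        by_contra hc
        exact h1 (Finset.mem_filter.2 ⟨h4, by omega⟩)
      have h6 : ((pts S b B).image Prod.snd).card ≤ k - 1 := by
        by_contra hc
        exact h2 (Finset.mem_filter.2 ⟨h4, by omega⟩)
      have h7 : pts S b B ⊆ (pts S b B).image Prod.fst ×ˢ (pts S b B).image Prod.snd :=
        Finset.subset_product
      refine (Finset.card_le_card h7).trans ?_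
      rw [Finset.card_product, pow_two]
      exact Nat.mul_le_mul h5 h6
    have hsum : S.card ≤ (k - 1) ^ 2 * S'.card + b ^ 2 * Wd.card + b ^ 2 * Tl.card := by
      rw [hcard]
      calc ∑ B ∈ S', (pts S b B).card
          ≤ ∑ B ∈ S', ((k - 1) ^ 2 + (if B ∈ Wd then b ^ 2 else 0) +
              (if B ∈ Tl then b ^ 2 else 0)) := by
            refine Finset.sum_le_sum fun B hB => ?_
            by_cases h1 : B ∈ Wd
            · rw [if_pos h1]
              have := hbd B
              omega
            · by_cases h2 : B ∈ Tl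
              · rw [if_pos h2]
                have := hbd B
                omega
              · rw [if_neg h1, if_neg h2]
                exact hsmall B h1 h2 hB
        _ = (k - 1) ^ 2 * S'.card + b ^ 2 * (S'.filter (· ∈ Wd)).card +
              b ^ 2 * (S'.filter (· ∈ Tl)).card := by
            rw [Finset.sum_add_distrib, Finset.sum_add_distrib, Finset.sum_const, smul_eq_mul,
              ← Finset.sum_filter, ← Finset.sum_filter, Finset.sum_const, Finset.sum_const,
              smul_eq_mul, smul_eq_mul]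
            ring
        _ ≤ _ := by
            have h1 : (S'.filter (· ∈ Wd)).card ≤ Wd.card :=
              Finset.card_le_card fun B hB => (Finset.mem_filter.1 hB).2
            have h2 : (S'.filter (· ∈ Tl)).card ≤ Tl.card :=
              Finset.card_le_card fun B hB => (Finset.mem_filter.1 hB).2
            gcongr
    have hW := wide_count hb0 h M
    have hT := tall_count hb0 h M
    rw [← hWd] at hW
    rw [← hTl] at hT
    obtain ⟨j, rfl⟩ : ∃ j, k = j + 1 := ⟨k - 1, by omega⟩
    simp only [Nat.add_sub_cancel] at hW hT hsum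
    have key : (j ^ 2 * (mt (j + 1) * M)) + b ^ 2 * (M * (j * b.choose (j + 1))) +
        b ^ 2 * (M * (j * b.choose (j + 1))) ≤ mt (j + 1) * m := by
      rw [hmt]
      calc j ^ 2 * (b ^ 2 * b.choose (j + 1) * M) + b ^ 2 * (M * (j * b.choose (j + 1))) +
            b ^ 2 * (M * (j * b.choose (j + 1)))
          = b ^ 2 * b.choose (j + 1) * ((j ^ 2 + 2 * j) * M) := by ring
        _ ≤ b ^ 2 * b.choose (j + 1) * ((j + 1) ^ 2 * M) := by
            refine Nat.mul_le_mul_left _ (Nat.mul_le_mul_right _ ?_)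
            nlinarith
        _ ≤ b ^ 2 * b.choose (j + 1) * m := Nat.mul_le_mul_left _ hMb
    refine hsum.trans (le_trans ?_ key)
    gcongr

end Pool.Agent.Hhelper9.Twins
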